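import Mathlib
import Pool.Agent.Y368.SLD.Defs

/-!
# Rational groups of unipotent matrices
-/

set_option autoImplicit false

open scoped ContDiff Topology
open Filter Set Matrix

namespace Pool.Agent.V11104.NC

open Pool.Agent.Y368.SLD

variable {d : ℕ}

/-- `exp (s X)`, for a nilpotent rational matrix `X` -/
noncomputable def expo (X : Matrix (Fin d) (Fin d) ℚ) (s : ℝ) : Matrix (Fin d) (Fin d) ℝ :=
  IsNilpotent.exp (s • X.map (Rat.cast : ℚ → ℝ))

/-- the set of the products `exp (s₁ X₁) ⋯ exp (s_k X_k)`, `s₁, …, s_k` real, for a list `X₁, …, X_k` of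
rational matrices -/
def prods : List (Matrix (Fin d) (Fin d) ℚ) → Set (Matrix (Fin d) (Fin d) ℝ)
  | [] => {1}
  | X :: L => {A | ∃ s : ℝ, ∃ B ∈ prods L, A = expo X s * B}

/-- `A` is block triangular with respect to the weights `w`, with diagonal blocks equal to `0` -/
def Strict {R : Type*} [Zero R] (w : Fin d → ℕ) (A : Matrix (Fin d) (Fin d) R) : Prop :=
  ∀ a b, w b ≤ w a → A a b = 0

/-- `A` is block triangular with respect to the weights `w`, with diagonal blocks equal to `1` -/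
def Unip {R : Type*} [Zero R] [One R] (w : Fin d → ℕ) (A : Matrix (Fin d) (Fin d) R) : Prop :=
  ∀ a b, w b ≤ w a → A a b = if a = b then 1 else 0

lemma Strict.pow {R : Type*} [CommRing R] {w : Fin d → ℕ} {A : Matrix (Fin d) (Fin d) R}
    (h : Strict w A) (j : ℕ) : ∀ a b, w b < w a + j → (A ^ j) a b = 0 := by
  induction j with
  | zero =>
    intro a b hab
    rw [pow_zero, Matrix.one_apply, if_neg]
    rintro rfl
    omega
  | succ j ih =>
    intro a b hab
    rw [pow_succ, Matrix.mul_apply]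
    refine Finset.sum_eq_zero fun c _ => ?_
    by_cases h1 : w c < w a + j
    · rw [ih a c h1, zero_mul]
    · rw [h c b (by omega), mul_zero]

lemma Strict.pow_zero {R : Type*} [CommRing R] {w : Fin d → ℕ} {A : Matrix (Fin d) (Fin d) R}
    (h : Strict w A) : A ^ (Finset.univ.sup w + 1) = 0 := by
  ext a b
  refine h.pow _ a b ?_
  have : w b ≤ Finset.univ.sup w := Finset.le_sup (Finset.mem_univ b)
  omega

lemma Strict.cast {w : Fin d → ℕ} {X : Matrix (Fin d) (Fin d) ℚ} (h : Strict w X) (s : ℝ) :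
    Strict w (s • X.map (Rat.cast : ℚ → ℝ)) := by
  intro a b hab
  simp [h a b hab]

lemma expo_eq {w : Fin d → ℕ} {X : Matrix (Fin d) (Fin d) ℚ} (h : Strict w X) (s : ℝ) :
    expo X s = ∑ j ∈ Finset.range (Finset.univ.sup w + 1),
      (j.factorial : ℚ)⁻¹ • (s • X.map (Rat.cast : ℚ → ℝ)) ^ j :=
  IsNilpotent.exp_eq_sum (h.cast s).pow_zero

lemma expo_apply {w : Fin d → ℕ} {X : Matrix (Fin d) (Fin d) ℚ} (h : Strict w X) (s : ℝ)
    (a b : Fin d) : expo X s a b = ∑ j ∈ Finset.range (Finset.univ.sup w + 1),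
      (((j.factorial : ℚ)⁻¹ * (X ^ j) a b : ℚ) : ℝ) * s ^ j := by
  rw [expo_eq h, Matrix.sum_apply]
  refine Finset.sum_congr rfl fun j _ => ?_
  have h1 : (X.map (Rat.cast : ℚ → ℝ)) ^ j = (X ^ j).map (Rat.cast : ℚ → ℝ) := by
    have := map_pow (RingHom.mapMatrix (m := Fin d) (Rat.castHom ℝ)) X j
    exact this.symm
  rw [smul_pow, h1, Matrix.smul_apply, Matrix.smul_apply, Matrix.map_apply, Rat.smul_def,
    smul_eq_mul]
  push_cast
  ring

lemma expo_add {w : Fin d → ℕ} {X : Matrix (Fin d) (Fin d) ℚ} (h : Strict w X) (s t : ℝ) :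
    expo X (s + t) = expo X s * expo X t := by
  unfold expo
  rw [add_smul]
  refine IsNilpotent.exp_add_of_commute ?_ ⟨_, (h.cast s).pow_zero⟩ ⟨_, (h.cast t).pow_zero⟩
  exact ((Commute.refl _).smul_left s).smul_right t

lemma expo_zero (X : Matrix (Fin d) (Fin d) ℚ) : expo X 0 = 1 := by
  unfold expo
  rw [zero_smul]
  exact IsNilpotent.exp_zero

lemma expo_smooth {w : Fin d → ℕ} {X : Matrix (Fin d) (Fin d) ℚ} (h : Strict w X) (a b : Fin d) :
    ContDiff ℝ ∞ fun s => expo X s a b := by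
  simp_rw [expo_apply h]
  fun_prop

lemma expo_rat {w : Fin d → ℕ} {X : Matrix (Fin d) (Fin d) ℚ} (h : Strict w X) (ρ : ℚ)
    (a b : Fin d) : ∃ c : ℚ, expo X ρ a b = c := by
  refine ⟨∑ j ∈ Finset.range (Finset.univ.sup w + 1),
      ((j.factorial : ℚ)⁻¹ * (X ^ j) a b : ℚ) * ρ ^ j, ?_⟩
  rw [expo_apply h]
  push_cast
  rfl

lemma expo_unip {w : Fin d → ℕ} {X : Matrix (Fin d) (Fin d) ℚ} (h : Strict w X) (s : ℝ) :
    Unip w (expo X s) := by
  intro a b hab
  rw [expo_apply h, Finset.sum_eq_single_of_mem 0 (by simp)]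
  · simp only [Nat.factorial_zero, Nat.cast_one, inv_one, _root_.pow_zero, one_mul, mul_one,
      Matrix.one_apply]
    split_ifs <;> simp
  · intro j _ hj
    rw [h.pow j a b (by omega), mul_zero, Rat.cast_zero, zero_mul]

lemma Unip.mul {R : Type*} [CommRing R] {w : Fin d → ℕ} {A B : Matrix (Fin d) (Fin d) R}
    (hA : Unip w A) (hB : Unip w B) : Unip w (A * B) := by
  intro a b hab
  rw [Matrix.mul_apply, Finset.sum_eq_single a]
  · rw [hA a a le_rfl, if_pos rfl, one_mul, hB a b hab]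
  · intro c _ hc
    by_cases h1 : w c ≤ w a
    · rw [hA a c h1, if_neg (Ne.symm hc), zero_mul]
    · rw [hB c b (by omega), if_neg, mul_zero]
      rintro rfl
      omega
  · intro h1
    exact absurd (Finset.mem_univ a) h1

lemma Unip.one {R : Type*} [CommRing R] (w : Fin d → ℕ) :
    Unip w (1 : Matrix (Fin d) (Fin d) R) := by
  intro a b _
  rw [Matrix.one_apply]

lemma Unip.det {R : Type*} [CommRing R] {w : Fin d → ℕ} {A : Matrix (Fin d) (Fin d) R}
    (hA : Unip w A) : A.det = 1 := by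
  have hb : A.BlockTriangular w := by
    intro a b hab
    rw [hA a b hab.le, if_neg]
    rintro rfl
    exact lt_irrefl _ hab
  rw [hb.det]
  refine Finset.prod_eq_one fun k _ => ?_
  have : A.toSquareBlock w k = 1 := by
    ext a b
    have h1 : w a.1 = k := a.2
    have h2 : w b.1 = k := b.2
    rw [Matrix.toSquareBlock_def, Matrix.of_apply, hA a.1 b.1 (by omega), Matrix.one_apply]
    simp only [Subtype.ext_iff]
  rw [this, Matrix.det_one]

lemma prods_unip {w : Fin d → ℕ} (L : List (Matrix (Fin d) (Fin d) ℚ)) (hL : ∀ X ∈ L, Strict w X) :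
    ∀ A ∈ prods L, Unip w A := by
  induction L with
  | nil =>
    intro A hA
    rw [show A = 1 from hA]
    exact Unip.one w
  | cons X L ih =>
    rintro A ⟨s, B, hB, rfl⟩
    exact (expo_unip (hL X (by simp)) s).mul (ih (fun Y hY => hL Y (by simp [hY])) B hB)

lemma one_mem_prods (L : List (Matrix (Fin d) (Fin d) ℚ)) : (1 : Matrix (Fin d) (Fin d) ℝ) ∈ prods L := by
  induction L with
  | nil => rfl
  | cons X L ih => exact ⟨0, 1, ih, by rw [expo_zero, one_mul]⟩

lemma expo_mem_prods {L : List (Matrix (Fin d) (Fin d) ℚ)} {X : Matrix (Fin d) (Fin d) ℚ}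
    (hX : X ∈ L) (s : ℝ) : expo X s ∈ prods L := by
  induction L with
  | nil => simp at hX
  | cons Y L ih =>
    rcases List.mem_cons.1 hX with h | h
    · subst h
      exact ⟨s, 1, one_mem_prods L, by rw [mul_one]⟩
    · exact ⟨0, _, ih h, by rw [expo_zero, one_mul]⟩

/-- the element `exp (s X)` of `SL(d, ℝ)` -/
noncomputable def xg {w : Fin d → ℕ} {X : Matrix (Fin d) (Fin d) ℚ} (h : Strict w X) (s : ℝ) :
    SLd d := ⟨expo X s, (expo_unip h s).det⟩

/-- a power of an integral matrix of determinant `±1` is `1` modulo `N` -/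
lemma pow_mod (T : Matrix (Fin d) (Fin d) ℤ) (hT : IsUnit T.det) (N : ℕ) (hN : 1 ≤ N) :
    ∃ k : ℕ, 1 ≤ k ∧ ∃ E : Matrix (Fin d) (Fin d) ℤ, T ^ k = 1 + (N : ℤ) • E := by
  have : NeZero N := ⟨by omega⟩
  set φ : Matrix (Fin d) (Fin d) ℤ →+* Matrix (Fin d) (Fin d) (ZMod N) :=
    RingHom.mapMatrix (Int.castRingHom (ZMod N)) with hφ
  have hu : IsUnit (φ T) := by
    have h1 : IsUnit T := (Matrix.isUnit_iff_isUnit_det T).2 hT
    exact h1.map φ
  obtain ⟨u, hu⟩ := hu
  have hfin : Finite (Matrix (Fin d) (Fin d) (ZMod N))ˣ := inferInstance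
  obtain ⟨k, hk, hk1⟩ := isOfFinOrder_iff_pow_eq_one.1 (isOfFinOrder_of_finite u)
  refine ⟨k, hk, ?_⟩
  have h2 : φ (T ^ k) = 1 := by
    rw [map_pow, ← hu, ← Units.val_pow_eq_pow_val, hk1, Units.val_one]
  have h3 : ∀ a b, ∃ e : ℤ, (T ^ k) a b = (1 : Matrix (Fin d) (Fin d) ℤ) a b + (N : ℤ) * e := by
    intro a b
    have h4 : ((T ^ k) a b : ZMod N) = ((1 : Matrix (Fin d) (Fin d) ℤ) a b : ZMod N) := by
      have h5 := congrFun (congrFun h2 a) b
      have h6 : φ (T ^ k) a b = (((T ^ k) a b : ℤ) : ZMod N) := rfl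
      rw [← h6, h5, Matrix.one_apply, Matrix.one_apply]
      split_ifs <;> simp
    have h7 := (ZMod.intCast_eq_intCast_iff_dvd_sub _ _ _).1 h4.symm
    obtain ⟨e, he⟩ := h7
    exact ⟨e, by linarith⟩
  choose E hE using h3
  refine ⟨Matrix.of E, ?_⟩
  ext a b
  rw [hE, Matrix.add_apply, Matrix.smul_apply, Matrix.of_apply, smul_eq_mul]

/-- Some power of a rational matrix `T` with integral diagonal blocks is integral. -/
lemma pow_int {w : Fin d → ℕ} (T : Matrix (Fin d) (Fin d) ℚ) (hdet : T.det = 1 ∨ T.det = -1)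
    (h1 : ∀ a b, w b < w a → T a b = 0) (h2 : ∀ a b, w a = w b → ∃ z : ℤ, T a b = z) :
    ∃ k : ℕ, 1 ≤ k ∧ ∃ S : Matrix (Fin d) (Fin d) ℤ, T ^ k = S.map (Int.cast : ℤ → ℚ) := by
  -- common denominator
  obtain ⟨q, hq, hqT⟩ : ∃ q : ℕ, 1 ≤ q ∧ ∀ a b, ∃ z : ℤ, (q : ℚ) * T a b = z := by
    refine ⟨∏ a, ∏ b, (T a b).den, Nat.one_le_iff_ne_zero.2 ?_, ?_⟩
    · exact Finset.prod_ne_zero_iff.2 fun a _ => Finset.prod_ne_zero_iff.2 fun b _ =>
        (T a b).den_ne_zero
    · intro a b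
      have hd : (T a b).den ∣ ∏ a, ∏ b, (T a b).den :=
        (Finset.dvd_prod_of_mem (fun b => (T a b).den) (Finset.mem_univ b)).trans
          (Finset.dvd_prod_of_mem (fun a => ∏ b, (T a b).den) (Finset.mem_univ a))
      obtain ⟨e, he⟩ := hd
      refine ⟨(T a b).num * e, ?_⟩
      rw [he]
      push_cast
      have h3 := Rat.mul_den_eq_num (T a b)
      calc ((T a b).den : ℚ) * e * T a b = (T a b * (T a b).den) * e := by ring
        _ = (T a b).num * e := by rw [h3]
  have hq0 : (q : ℚ) ≠ 0 := by exact_mod_cast (by omega : q ≠ 0)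
  have hex : ∀ a b, ∃ z : ℤ, (q : ℚ) ^ (w b - w a) * T a b = z := by
    intro a b
    rcases lt_trichotomy (w a) (w b) with h | h | h
    · obtain ⟨z, hz⟩ := hqT a b
      refine ⟨(q : ℤ) ^ (w b - w a - 1) * z, ?_⟩
      push_cast
      rw [← hz, ← mul_assoc, ← pow_succ]
      congr 2
      omega
    · obtain ⟨z, hz⟩ := h2 a b h
      exact ⟨z, by rw [h, Nat.sub_self, pow_zero, one_mul, hz]⟩
    · exact ⟨0, by rw [h1 a b h, mul_zero, Int.cast_zero]⟩
  choose T' hT' using hex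
  set D : Matrix (Fin d) (Fin d) ℚ := Matrix.diagonal fun a => (q : ℚ) ^ w a with hD
  set T'' : Matrix (Fin d) (Fin d) ℤ := Matrix.of T' with hT''
  have hcomm : D * T''.map (Int.cast : ℤ → ℚ) = T * D := by
    ext a b
    rw [hD, Matrix.diagonal_mul, Matrix.mul_diagonal, Matrix.map_apply, hT'', Matrix.of_apply,
      ← hT']
    by_cases h : w b < w a
    · rw [h1 a b h]; simp
    · rw [← mul_assoc, ← pow_add, mul_comm (T a b)]
      congr 2
      omega
  have hDdet : D.det ≠ 0 := by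
    rw [hD, Matrix.det_diagonal]
    exact Finset.prod_ne_zero_iff.2 fun a _ => pow_ne_zero _ hq0
  have hdetT : ((T''.det : ℤ) : ℚ) = T.det := by
    have h3 := congrArg Matrix.det hcomm
    rw [Matrix.det_mul, Matrix.det_mul, mul_comm] at h3
    have h4 := mul_right_cancel₀ hDdet h3
    rw [← h4]
    exact (RingHom.map_det (Int.castRingHom ℚ) T'')
  have hTu : IsUnit T''.det := by
    rw [Int.isUnit_iff]
    rcases hdet with h | h
    · left; rw [h] at hdetT; exact_mod_cast hdetT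
    · right; rw [h] at hdetT; exact_mod_cast hdetT
  set W := Finset.univ.sup w with hW
  obtain ⟨k, hk, E, hE⟩ := pow_mod T'' hTu (q ^ W) (Nat.one_le_pow _ _ (by omega))
  refine ⟨k, hk, ?_⟩
  have hcommk : ∀ k : ℕ, D * (T''.map (Int.cast : ℤ → ℚ)) ^ k = T ^ k * D := by
    intro k
    induction k with
    | zero => rw [pow_zero, pow_zero, mul_one, one_mul]
    | succ k ih => rw [pow_succ, ← mul_assoc, ih, mul_assoc, hcomm, ← mul_assoc, ← pow_succ]
  have hmap : (T''.map (Int.cast : ℤ → ℚ)) ^ k = (T'' ^ k).map (Int.cast : ℤ → ℚ) := by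
    have := map_pow (RingHom.mapMatrix (m := Fin d) (Int.castRingHom ℚ)) T'' k
    exact this.symm
  refine ⟨Matrix.of fun a b => (if a = b then 1 else 0) + (q : ℤ) ^ w a * (q : ℤ) ^ (W - w b) * E a b,
    ?_⟩
  ext a b
  have h5 := congrFun (congrFun (hcommk k) a) b
  rw [hmap, hE, hD, Matrix.diagonal_mul, Matrix.mul_diagonal, Matrix.map_apply, Matrix.add_apply,
    Matrix.smul_apply, smul_eq_mul] at h5
  have hwb : w b ≤ W := Finset.le_sup (Finset.mem_univ b)
  have h6 : (q : ℚ) ^ W = (q : ℚ) ^ (W - w b) * (q : ℚ) ^ w b := by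
    rw [← pow_add, Nat.sub_add_cancel hwb]
  have hqb : (q : ℚ) ^ w b ≠ 0 := pow_ne_zero _ hq0
  rw [Matrix.map_apply, Matrix.of_apply]
  apply mul_right_cancel₀ hqb
  rw [← h5]
  push_cast
  rw [h6]
  by_cases hab : a = b
  · subst hab
    rw [Matrix.one_apply_eq, if_pos rfl]
    push_cast
    ring
  · rw [Matrix.one_apply_ne hab, if_neg hab]
    push_cast
    ring

end Pool.Agent.V11104.NC
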