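import Mathlib
import Pool.Agent.V11104.NC.Alg

/-!
# Periodic nilmanifolds: definitions
-/

set_option autoImplicit false

open scoped Manifold ContDiff Topology
open Filter Set

universe u

namespace Pool.Agent.V11104.NC

open Pool.Agent.H718R2.G Pool.Agent.Y368.SLD

/-- `G` is a rational group of unipotent matrices: it is the set of all products
`exp (s₁ X₁) ⋯ exp (s_k X_k)`, `s₁, …, s_k` real, for some rational matrices `X₁, …, X_k` which are
strictly block triangular with respect to the weights `w`. -/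
def IsNilGroup {d : ℕ} (w : Fin d → ℕ) (G : Subgroup (SLd d)) : Prop :=
  ∃ L : List (Matrix (Fin d) (Fin d) ℚ), (∀ X ∈ L, ∀ a b, w b ≤ w a → X a b = 0) ∧
    ∀ g : SLd d, g ∈ G ↔ g.1 ∈ prods L

/-- `act` is a smooth action of the group `G` of matrices on the open subset `O` of the manifold `N`.
Smoothness: for every family `c` of elements of `G` whose entries depend smoothly on a parameter
`s ∈ ℝʲ`, the map `(s, y) ↦ c(s) y` is smooth. -/
structure IsGAction {d : ℕ} (G : Subgroup (SLd d)) (n : ℕ) (N : Type u) [TopologicalSpace N]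
    [ChartedSpace (V n) N] (O : Set N) (act : G → N → N) : Prop where
  isOpen : IsOpen O
  maps : ∀ g, ∀ y ∈ O, act g y ∈ O
  one : ∀ y ∈ O, act 1 y = y
  mul : ∀ g h, ∀ y ∈ O, act (g * h) y = act g (act h y)
  cont : ContinuousOn (fun p : G × N => act p.1 p.2) (univ ×ˢ O)
  smooth : ∀ (j : ℕ) (c : V j → G), (∀ a b, ContDiff ℝ ∞ fun s => (c s).1.1 a b) →
    ContMDiffOn ((𝓡 j).prod (𝓡 n)) (𝓡 n) ∞ (fun p : V j × N => act (c p.1) p.2) (univ ×ˢ O)

/-- The automorphism `σ` of `G` is the conjugation by the integral matrix `M` of determinant `±1`, which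
is block triangular with respect to the weights `w`. -/
structure IsConj {d : ℕ} (w : Fin d → ℕ) {G : Subgroup (SLd d)} (M : Matrix (Fin d) (Fin d) ℤ)
    (σ : G ≃* G) : Prop where
  det : IsUnit M.det
  block : ∀ a b, w b < w a → M a b = 0
  conj : ∀ g : G, (σ g).1.1 * M.map (Int.cast : ℤ → ℝ) = M.map (Int.cast : ℤ → ℝ) * g.1.1

/-- `y` lies on a periodic nilmanifold `C` of `F` on which the return map is affine: a rational group `G`
of unipotent matrices acts smoothly on an open set `O`, `C = G y₀` is the orbit of a point `y₀ ∈ O`, it is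
compact and contains `y`, and the elements of `G` with integral entries map `y₀` to finitely many points
only (so the stabiliser `Γ` of `y₀` contains a subgroup of finite index of `G ∩ SL(d, ℤ)`, and
`C ≅ G / Γ`); `C` is periodic with some period `m ≥ 1` (`F^i(C)` does not meet `C` for `1 ≤ i < m`), and on
`C` the map `F^m` is `g y₀ ↦ h σ(g) y₀` for some `h ∈ G` and some automorphism `σ` of `G`, the conjugation
by some block triangular integral matrix of determinant `±1`. Nothing is required of `F` outside of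
`C, F(C), ..., F^(m-1)(C)`. -/
def IsNilPer (n : ℕ) (N : Type u) [TopologicalSpace N] [ChartedSpace (V n) N] (F : N → N)
    (y : N) : Prop :=
  ∃ (d : ℕ) (w : Fin d → ℕ) (G : Subgroup (SLd d)) (M : Matrix (Fin d) (Fin d) ℤ) (σ : G ≃* G)
    (O : Set N) (act : G → N → N) (y₀ : N), IsNilGroup w G ∧ IsConj w M σ ∧
    IsGAction G n N O act ∧ y₀ ∈ O ∧ IsCompact (range fun g => act g y₀) ∧
    {x | ∃ g : G, (∀ a b, ∃ z : ℤ, g.1.1 a b = z) ∧ act g y₀ = x}.Finite ∧
    (∃ m : ℕ, 1 ≤ m ∧ (∃ h : G, ∀ g, F^[m] (act g y₀) = act (h * σ g) y₀) ∧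
      ∀ i, 1 ≤ i → i < m → ∀ g g', F^[i] (act g y₀) ≠ act g' y₀) ∧
    ∃ g : G, act g y₀ = y

end Pool.Agent.V11104.NC
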