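import Mathlib
import Pool.Agent.V11104.NC.Defs
import Pool.Agent.TH382.HS.Fam
import Pool.Agent.TH382.HS.Limit

/-!
# Perturbations along one-parameter subgroups
-/

set_option autoImplicit false
set_option linter.unusedSectionVars false

open scoped Manifold ContDiff Topology NNReal
open Filter Set Metric

universe u

namespace Pool.Agent.V11104.NC

open Pool.Agent.H718R2.G Pool.Agent.W564.SC Pool.Agent.TH382.QC Pool.Agent.TH80.CLX
  Pool.Agent.TH382.HS Pool.Agent.Y368.SLD

variable {d : ℕ} {G : Subgroup (SLd d)}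

/-- a smooth homomorphism from `ℝʲ` to `G` -/
structure IsHom {j : ℕ} (c : V j → G) : Prop where
  smooth : ∀ a b, ContDiff ℝ ∞ fun s => (c s).1.1 a b
  add : ∀ s t, c (s + t) = c s * c t

theorem IsHom.zero {j : ℕ} {c : V j → G} (hc : IsHom c) : c 0 = 1 := by
  have h1 := hc.add 0 0
  rw [add_zero] at h1
  exact (mul_eq_left.1 h1.symm)

variable {n : ℕ} {N : Type u} [TopologicalSpace N] [T2Space N] [CompactSpace N]
  [ChartedSpace (V n) N] [IsManifold (𝓡 n) ∞ N] {r : ℕ∞}

/-- perturbations of `F` along a homomorphism `ℝʲ → G` -/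
theorem pert {O : Set N} {act : G → N → N} (hact : IsGAction G n N O act) {y : N}
    (hyO : y ∈ O) (hcpt : IsCompact (range fun g => act g y)) (F : DiffM n N r) {m : ℕ}
    (hdis : ∀ i, 1 ≤ i → i < m → ∀ g g', F^[i] (act g y) ≠ act g' y)
    {j : ℕ} {c : V j → G} (hc : IsHom c) :
    ∃ (H : V j → DiffM n N r) (ε : ℝ), 0 < ε ∧ H 0 = F ∧ IsFam n N r H ∧ ∀ t, ‖t‖ < ε →
      ∀ (a : G) (i : ℕ), 1 ≤ i → i ≤ m → (H t)^[i] (act a y) = F^[i] (act (c t * a) y) := by
  classical
  have hc0 := hc.zero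
  -- the orbit
  obtain ⟨C, hC⟩ : ∃ C : Set N, C = range (fun a : G => act a y) := ⟨_, rfl⟩
  have hCc : IsCompact C := by rw [hC]; exact hcpt
  have hCmem : ∀ a : G, act a y ∈ C := by
    intro a
    rw [hC]
    exact ⟨a, rfl⟩
  have hCmem' : ∀ w ∈ C, ∃ a : G, act a y = w := by
    intro w hw
    rw [hC] at hw
    exact hw
  have hCO : C ⊆ O := by
    intro w hw
    obtain ⟨a, ha⟩ := hCmem' w hw
    rw [← ha]
    exact hact.maps a y hyO
  obtain ⟨C0, hC0⟩ : ∃ C0 : Set N, C0 = ⋃ i ∈ Finset.Ico 1 m, F^[i] '' C := ⟨_, rfl⟩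
  have hFc : ∀ i : ℕ, Continuous (F^[i]) := fun i => F.continuous.iterate i
  have hC0c : IsClosed C0 := by
    rw [hC0]
    exact isClosed_biUnion_finset fun i _ => (hCc.image (hFc i)).isClosed
  have hdisj0 : Disjoint C0 C := by
    rw [Set.disjoint_left]
    intro w hw1 hw2
    rw [hC0] at hw1
    simp only [mem_iUnion, Finset.mem_Ico] at hw1
    obtain ⟨i, ⟨hi1, hi2⟩, v, hv, hvw⟩ := hw1
    obtain ⟨a, ha⟩ := hCmem' v hv
    obtain ⟨b, hb⟩ := hCmem' w hw2
    apply hdis i hi1 hi2 a b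
    rw [ha, hvw, hb]
  -- a compact neighbourhood of the orbit
  obtain ⟨O₁, hO₁, hCO₁, hO₁O, hO₁c⟩ := exists_open_between_and_isCompact_closure hCc hact.isOpen hCO
  have hD : IsClosed (C0 ∪ O₁ᶜ) := hC0c.union hO₁.isClosed_compl
  have hdisj : Disjoint (C0 ∪ O₁ᶜ) C := by
    rw [Set.disjoint_union_left]
    exact ⟨hdisj0, Set.disjoint_left.2 fun w hw hwC => hw (hCO₁ hwC)⟩
  obtain ⟨f, hf0, hf1, -⟩ := exists_contMDiffMap_zero_one_of_isClosed (n := ⊤) (𝓡 n) hD
    hCc.isClosed hdisj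
  have hρ : ContMDiff (𝓡 n) 𝓘(ℝ, ℝ) ∞ (f : N → ℝ) := f.contMDiff
  have hρ0 : ∀ w ∈ O, w ∉ closure O₁ → f w = 0 := by
    intro w _ hwK
    exact hf0 (Or.inr fun h1 => hwK (subset_closure h1))
  have hA : LAct j n N O (fun t w => act (c t) w) :=
    { isOpen := hact.isOpen
      maps := fun t w hw => hact.maps _ w hw
      smooth := hact.smooth j c hc.smooth
      zero := fun w hw => by
        show act (c 0) w = w
        rw [hc0, hact.one w hw]
      add := fun t t' w hw => by
        show act (c (t + t')) w = act (c t) (act (c t') w)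
        rw [hc.add, hact.mul _ _ w hw] }
  obtain ⟨H, ε, hε, hH0, hfam, hH⟩ := lact_fam' hA hρ (closure O₁) hO₁c isClosed_closure hO₁O hρ0 r F
  refine ⟨H, ε, hε, hH0, hfam, ?_⟩
  intro t ht a i' hi1
  have hHs := hH t ht
  induction i' with
  | zero => omega
  | succ i' ih =>
    intro him
    rcases Nat.eq_zero_or_pos i' with h0 | h0
    · subst h0
      have h2 : f (act a y) = 1 := hf1 (hCmem a)
      show H t (act a y) = F (act (c t * a) y)
      rw [hHs, if_pos (hCO (hCmem a)), h2, one_smul]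
      show F (act (c t) (act a y)) = _
      rw [← hact.mul _ _ y hyO]
    · rw [Function.iterate_succ_apply', ih h0 (by omega), hHs,
        Function.iterate_succ_apply' F]
      have h2 : f (F^[i'] (act (c t * a) y)) = 0 := hf0 (by
        left
        rw [hC0]
        simp only [mem_iUnion, Finset.mem_Ico]
        exact ⟨i', ⟨h0, by omega⟩, _, hCmem _, rfl⟩)
      congr 1
      by_cases hO : F^[i'] (act (c t * a) y) ∈ O
      · rw [if_pos hO, h2, zero_smul]
        show act (c 0) _ = _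
        rw [hc0, hact.one _ hO]
      · rw [if_neg hO]

/-- All `F` whose return map to the orbit of `y` is `g y ↦ h σ(g) y` can be closed at `y`. -/
def PP (n : ℕ) {N : Type u} [TopologicalSpace N] [ChartedSpace (V n) N] (r : ℕ∞)
    (act : G → N → N) (y : N) (m : ℕ) (σ : G ≃* G) (h : G) : Prop :=
  ∀ F : DiffM n N r, (∀ g, F^[m] (act g y) = act (h * σ g) y) →
    (∀ i, 1 ≤ i → i < m → ∀ g g', F^[i] (act g y) ≠ act g' y) → ClosableAt n N r F y

/-- the inverse automorphism is given by the inverse matrix -/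
theorem symm_coe {w : Fin d → ℕ} {M : Matrix (Fin d) (Fin d) ℤ} {σ : G ≃* G} (hσ : IsConj w M σ)
    (g : G) : (σ.symm g).1.1 = (M⁻¹).map (Int.cast : ℤ → ℝ) * g.1.1 * M.map (Int.cast : ℤ → ℝ) := by
  have h1 := hσ.conj (σ.symm g)
  rw [MulEquiv.apply_symm_apply] at h1
  have h2 : (M⁻¹).map (Int.cast : ℤ → ℝ) * M.map (Int.cast : ℤ → ℝ) = 1 := by
    have h3 := M.nonsing_inv_mul hσ.det
    have h4 := congrArg (RingHom.mapMatrix (m := Fin d) (Int.castRingHom ℝ)) h3
    rw [map_mul, map_one] at h4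
    exact h4
  rw [mul_assoc, h1, ← mul_assoc, h2, one_mul]

/-- Limits along homomorphisms. -/
theorem pp_limit {O : Set N} {act : G → N → N} (hact : IsGAction G n N O act) {y : N}
    (hyO : y ∈ O) (hcpt : IsCompact (range fun g => act g y)) {m : ℕ} (hm : 1 ≤ m)
    {w : Fin d → ℕ} {M : Matrix (Fin d) (Fin d) ℤ} {σ : G ≃* G} (hσ : IsConj w M σ) {h : G}
    {j : ℕ} {c : V j → G} (hc : IsHom c)
    (hf : ∃ᶠ t in 𝓝 (0 : V j), PP n r act y m σ (h * c t)) : PP n r act y m σ h := by
  intro F hF hdis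
  have hc' : IsHom (fun t => σ.symm (c t)) :=
    { smooth := by
        intro a b
        have h1 : ∀ s, (σ.symm (c s)).1.1 a b = ∑ i, (∑ l, (M⁻¹).map (Int.cast : ℤ → ℝ) a l *
            (c s).1.1 l i) * M.map (Int.cast : ℤ → ℝ) i b := by
          intro s
          rw [symm_coe hσ, Matrix.mul_apply]
          simp_rw [Matrix.mul_apply]
        simp_rw [h1]
        refine ContDiff.sum fun i _ => ContDiff.mul (ContDiff.sum fun l _ => ?_) contDiff_const
        exact contDiff_const.mul (hc.smooth l i)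
      add := fun s t => by
        show σ.symm (c (s + t)) = _
        rw [hc.add, map_mul] }
  obtain ⟨H, ε, hε, hH0, hfam, hH⟩ := pert hact hyO hcpt F hdis hc'
  apply closable_of_limit
  intro U hU hFU
  obtain ⟨s, hs, hPs⟩ := exists_seq_forall_of_frequently hf
  have hcv : Cv (fun i => H (s i)) F := by
    have h1 := Cv.fam Pool.Agent.W917.SC.comp hfam hs
    rwa [hH0] at h1
  have hev : ∀ᶠ i in atTop, ‖s i‖ < ε := by
    have h1 := hs.norm
    rw [norm_zero] at h1
    exact h1.eventually (gt_mem_nhds hε)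
  obtain ⟨i, hi, hiU⟩ := (hev.and (hcv.mem hU hFU)).exists
  refine ⟨_, hiU, subset_closure ?_⟩
  refine hPs i (H (s i)) ?_ ?_
  · intro a
    rw [hH (s i) hi a m hm le_rfl, hF, map_mul, MulEquiv.apply_symm_apply, mul_assoc]
  · intro i' h1 h2 g g'
    rw [hH (s i) hi g i' h1 h2.le]
    exact hdis i' h1 h2 _ _

/-- entries are integers -/
def Integral (g : G) : Prop := ∀ a b, ∃ z : ℤ, g.1.1 a b = z

/-- entries are rational -/
def Rational (g : G) : Prop := ∀ a b, ∃ z : ℚ, g.1.1 a b = z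

/-- The case of rational translation parts. -/
theorem base {O : Set N} {act : G → N → N} (hact : IsGAction G n N O act) {y : N}
    (hyO : y ∈ O) {m : ℕ} (hm : 1 ≤ m) (hfin : {x | ∃ g : G, Integral g ∧ act g y = x}.Finite)
    {w : Fin d → ℕ} (hG : ∀ g : G, Unip w g.1.1)
    {M : Matrix (Fin d) (Fin d) ℤ} {σ : G ≃* G} (hσ : IsConj w M σ) {h : G} (hh : Rational h) :
    PP n r act y m σ h := by
  intro F hF hdis U hU hFU
  refine ⟨F, hFU, ?_⟩
  choose hq hhq using hh
  -- the rational matrix of the return map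
  set T : Matrix (Fin d) (Fin d) ℚ := Matrix.of hq * M.map (Int.cast : ℤ → ℚ) with hT
  have hcast : (Matrix.of hq).map (Rat.cast : ℚ → ℝ) = h.1.1 := by
    ext a b
    rw [Matrix.map_apply, Matrix.of_apply, hhq]
  have hqU : Unip w (Matrix.of hq) := by
    intro a b hab
    have h1 := hG h a b hab
    rw [hhq] at h1
    rw [Matrix.of_apply]
    split_ifs at h1 ⊢
    · exact_mod_cast h1
    · exact_mod_cast h1
  have hTdet : T.det = 1 ∨ T.det = -1 := by
    rw [hT, Matrix.det_mul, hqU.det, one_mul]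
    have h1 : (M.map (Int.cast : ℤ → ℚ)).det = ((M.det : ℤ) : ℚ) :=
      (RingHom.map_det (Int.castRingHom ℚ) M).symm
    rw [h1]
    rcases Int.isUnit_iff.1 hσ.det with h2 | h2
    · left; rw [h2]; norm_num
    · right; rw [h2]; norm_num
  have hT1 : ∀ a b, w b < w a → T a b = 0 := by
    intro a b hab
    rw [hT, Matrix.mul_apply]
    refine Finset.sum_eq_zero fun c _ => ?_
    by_cases h1 : w b < w c
    · rw [Matrix.map_apply, hσ.block c b h1, Int.cast_zero, mul_zero]
    · rw [hqU a c (by omega), if_neg, zero_mul]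
      rintro rfl
      exact h1 hab
  have hT2 : ∀ a b, w a = w b → ∃ z : ℤ, T a b = z := by
    intro a b hab
    refine ⟨M a b, ?_⟩
    rw [hT, Matrix.mul_apply, Finset.sum_eq_single a]
    · rw [hqU a a le_rfl, if_pos rfl, one_mul, Matrix.map_apply]
    · intro c _ hc
      by_cases h1 : w c ≤ w a
      · rw [hqU a c h1, if_neg (Ne.symm hc), zero_mul]
      · rw [Matrix.map_apply, hσ.block c b (by omega), Int.cast_zero, mul_zero]
    · intro h1
      exact absurd (Finset.mem_univ a) h1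
  obtain ⟨k, hk, S, hS⟩ := pow_int T hTdet hT1 hT2
  -- the iterates of the return map
  obtain ⟨p, hp0, hps⟩ : ∃ p : ℕ → G, p 0 = 1 ∧ ∀ i, p (i + 1) = h * σ (p i) :=
    ⟨fun i => Nat.rec 1 (fun _ g => h * σ g) i, rfl, fun i => rfl⟩
  have hB : ∀ i : ℕ, F^[m * i] y = act (p i) y := by
    intro i
    induction i with
    | zero => rw [mul_zero, hp0, hact.one y hyO]; rfl
    | succ i ih =>
      rw [Nat.mul_succ, add_comm, Function.iterate_add_apply, ih, hF, hps]
  set Mr : Matrix (Fin d) (Fin d) ℝ := M.map (Int.cast : ℤ → ℝ) with hMr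
  have hpM : ∀ i : ℕ, (p i).1.1 * Mr ^ i = (h.1.1 * Mr) ^ i := by
    intro i
    induction i with
    | zero => rw [hp0, pow_zero, pow_zero, mul_one]; rfl
    | succ i ih =>
      have h1 : (p (i + 1)).1.1 = h.1.1 * (σ (p i)).1.1 := by
        rw [hps]
        rfl
      calc (p (i + 1)).1.1 * Mr ^ (i + 1) = h.1.1 * ((σ (p i)).1.1 * Mr) * Mr ^ i := by
            rw [h1, pow_succ']; simp only [mul_assoc]
        _ = h.1.1 * Mr * ((p i).1.1 * Mr ^ i) := by rw [hσ.conj (p i), ← hMr]; simp only [mul_assoc]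
        _ = (h.1.1 * Mr) ^ (i + 1) := by rw [ih, pow_succ']
  have hTr : T.map (Rat.cast : ℚ → ℝ) = h.1.1 * Mr := by
    rw [hT, ← hcast]
    ext a b
    simp only [Matrix.map_apply, Matrix.mul_apply, hMr]
    push_cast
    rfl
  have hTk : (h.1.1 * Mr) ^ k = S.map (Int.cast : ℤ → ℝ) := by
    rw [← hTr]
    have h1 : (T.map (Rat.cast : ℚ → ℝ)) ^ k = (T ^ k).map (Rat.cast : ℚ → ℝ) :=
      (map_pow (RingHom.mapMatrix (m := Fin d) (Rat.castHom ℝ)) T k).symm
    rw [h1, hS]
    ext a b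
    simp only [Matrix.map_apply]
    push_cast
    rfl
  have hMinv : Mr * (M⁻¹).map (Int.cast : ℤ → ℝ) = 1 := by
    have h3 := M.mul_nonsing_inv hσ.det
    have h4 := congrArg (RingHom.mapMatrix (m := Fin d) (Int.castRingHom ℝ)) h3
    rw [map_mul, map_one] at h4
    exact h4
  have hint : ∀ i : ℕ, Integral (p (k * i)) := by
    intro i
    have h1 : (p (k * i)).1.1 = (S ^ i * (M⁻¹) ^ (k * i)).map (Int.cast : ℤ → ℝ) := by
      have h2 := hpM (k * i)
      rw [pow_mul (h.1.1 * Mr), hTk] at h2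
      have h3 : Mr ^ (k * i) * ((M⁻¹).map (Int.cast : ℤ → ℝ)) ^ (k * i) = 1 := by
        have h4 : ∀ e : ℕ, Mr ^ e * ((M⁻¹).map (Int.cast : ℤ → ℝ)) ^ e = 1 := by
          intro e
          induction e with
          | zero => simp
          | succ e ih =>
            rw [pow_succ, pow_succ', mul_assoc, ← mul_assoc Mr, hMinv, one_mul, ih]
        exact h4 _
      have h5 : (p (k * i)).1.1 = (S.map (Int.cast : ℤ → ℝ)) ^ i *
          ((M⁻¹).map (Int.cast : ℤ → ℝ)) ^ (k * i) := by
        rw [← h2, mul_assoc, h3, mul_one]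
      rw [h5]
      have h6 := map_mul (RingHom.mapMatrix (m := Fin d) (Int.castRingHom ℝ)) (S ^ i)
        ((M⁻¹) ^ (k * i))
      rw [map_pow, map_pow] at h6
      exact h6.symm
    intro a b
    exact ⟨(S ^ i * (M⁻¹) ^ (k * i)) a b, by rw [h1, Matrix.map_apply]⟩
  have hmem : ∀ i : ℕ, F^[m * (k * i)] y ∈ {x | ∃ g : G, Integral g ∧ act g y = x} :=
    fun i => ⟨p (k * i), hint i, (hB _).symm⟩
  have hfin' : Finite {x | ∃ g : G, Integral g ∧ act g y = x} := hfin
  obtain ⟨i, i', hne, he⟩ := Finite.exists_ne_map_eq_of_infinite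
    (fun i : ℕ => (⟨F^[m * (k * i)] y, hmem i⟩ : {x | ∃ g : G, Integral g ∧ act g y = x}))
  have he' : F^[m * (k * i)] y = F^[m * (k * i')] y := congrArg Subtype.val he
  wlog hlt : i < i' generalizing i i'
  · exact this i' i hne.symm he.symm he'.symm (by omega)
  have hinj : Function.Injective (F^[m * (k * i)]) := F.injective.iterate _
  refine ⟨m * (k * (i' - i)), ?_, ?_⟩
  · exact Nat.mul_pos hm (Nat.mul_pos hk (by omega))
  · apply hinj
    rw [← Function.iterate_add_apply, he']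
    congr 2
    have h7 : i' = i + (i' - i) := by omega
    conv_rhs => rw [h7]
    ring

end Pool.Agent.V11104.NC
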