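import Mathlib
import Pool.Agent.V11104.NC.Step

/-!
# The closing lemma at limits of periodic nilmanifolds
-/

set_option autoImplicit false
set_option linter.unusedSectionVars false

open scoped Manifold ContDiff Topology NNReal
open Filter Set Metric

universe u

namespace Pool.Agent.V11104.NC

open Pool.Agent.H718R2.G Pool.Agent.W564.SC Pool.Agent.TH382.QC Pool.Agent.TH80.CLX
  Pool.Agent.TH382.HS Pool.Agent.Y368.SLD

variable {d : ℕ} {G : Subgroup (SLd d)}

variable {n : ℕ} {N : Type u} [TopologicalSpace N] [T2Space N] [CompactSpace N]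
  [ChartedSpace (V n) N] [IsManifold (𝓡 n) ∞ N] {r : ℕ∞}

lemma Rational.mul {g h : G} (hg : Rational g) (hh : Rational h) : Rational (g * h) := by
  intro a b
  choose p hp using hg
  choose q hq using hh
  refine ⟨∑ c, p a c * q c b, ?_⟩
  have : (g * h).1.1 = g.1.1 * h.1.1 := rfl
  rw [this, Matrix.mul_apply]
  push_cast
  refine Finset.sum_congr rfl fun c _ => ?_
  rw [hp, hq]

/-- the element `exp (s X)` of `G` -/
noncomputable def eg {w : Fin d → ℕ} {X : Matrix (Fin d) (Fin d) ℚ} (hX : Strict w X)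
    (hXG : ∀ s, xg hX s ∈ G) (s : ℝ) : G := ⟨xg hX s, hXG s⟩

lemma eg_add {w : Fin d → ℕ} {X : Matrix (Fin d) (Fin d) ℚ} (hX : Strict w X)
    (hXG : ∀ s, xg hX s ∈ G) (s t : ℝ) : eg hX hXG (s + t) = eg hX hXG s * eg hX hXG t := by
  apply Subtype.ext
  apply Subtype.ext
  exact expo_add hX s t

lemma freq_rat (s : ℝ) : ∃ᶠ t in 𝓝 (0 : V 1), ∃ ρ : ℚ, s + t 0 = ρ := by
  rw [Filter.frequently_iff]
  intro U hU
  obtain ⟨ε, hε, hεU⟩ := Metric.mem_nhds_iff.1 hU
  obtain ⟨ρ, hρ1, hρ2⟩ := exists_rat_btwn (show s < s + ε by linarith)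
  refine ⟨EuclideanSpace.single 0 ((ρ : ℝ) - s), hεU ?_, ρ, ?_⟩
  · rw [mem_ball_zero_iff, EuclideanSpace.norm_single, Real.norm_eq_abs, abs_of_pos (by linarith)]
    linarith
  · simp

theorem ind {O : Set N} {act : G → N → N} (hact : IsGAction G n N O act) {y : N}
    (hyO : y ∈ O) (hcpt : IsCompact (range fun g => act g y)) {m : ℕ} (hm : 1 ≤ m)
    (hfin : {x | ∃ g : G, Integral g ∧ act g y = x}.Finite)
    {w : Fin d → ℕ} (hG : ∀ g : G, Unip w g.1.1)
    {M : Matrix (Fin d) (Fin d) ℤ} {σ : G ≃* G} (hσ : IsConj w M σ)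
    (L : List (Matrix (Fin d) (Fin d) ℚ)) (hL : ∀ X ∈ L, Strict w X)
    (hLG : ∀ X (hX : X ∈ L) (s : ℝ), xg (hL X hX) s ∈ G) :
    ∀ (T g : G), Rational T → g.1.1 ∈ prods L → PP n r act y m σ (T * g) := by
  induction L with
  | nil =>
    intro T g hT hg
    have h1 : g = 1 := by
      apply Subtype.ext
      apply Subtype.ext
      exact hg
    rw [h1, mul_one]
    exact base hact hyO hm hfin hG hσ hT
  | cons X L ih =>
    intro T g hT hg
    obtain ⟨s, B, hB, hgB⟩ := hg
    have hX : Strict w X := hL X (by simp)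
    have hXG : ∀ s, xg hX s ∈ G := fun s => hLG X (by simp) s
    set x := eg hX hXG with hx
    have hg' : g = x s * (x s⁻¹⁻¹)⁻¹ * g := by
      simp
    set b : G := (x s)⁻¹ * g with hb
    have hgb : g = x s * b := by rw [hb, mul_inv_cancel_left]
    have hb1 : b.1.1 = B := by
      have h1 : (x (-s)) * (x s) = 1 := by
        rw [hx, ← eg_add, neg_add_cancel]
        apply Subtype.ext
        apply Subtype.ext
        exact expo_zero X
      have h2 : (x s)⁻¹ = x (-s) := (eq_inv_of_mul_eq_one_left h1).symm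
      have h3 : b.1.1 = (x (-s)).1.1 * g.1.1 := by rw [hb, h2]; rfl
      have h4 : (x s).1.1 = expo X s := rfl
      rw [h3, hgB, ← h4, ← mul_assoc]
      have h5 : (x (-s)).1.1 * (x s).1.1 = 1 := by
        have := congrArg (fun e : G => e.1.1) h1
        exact this
      rw [h5, one_mul]
    have hc : IsHom (fun t : V 1 => b⁻¹ * x (t 0) * b) :=
      { smooth := by
          intro e f
          have h1 : ∀ t : V 1, (b⁻¹ * x (t 0) * b).1.1 e f =
              ∑ i, (∑ l, (b⁻¹).1.1 e l * expo X (t 0) l i) * b.1.1 i f := by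
            intro t
            have : (b⁻¹ * x (t 0) * b).1.1 = (b⁻¹).1.1 * expo X (t 0) * b.1.1 := rfl
            rw [this, Matrix.mul_apply]
            simp_rw [Matrix.mul_apply]
          simp_rw [h1]
          refine ContDiff.sum fun i _ => ContDiff.mul (ContDiff.sum fun l _ => ?_) contDiff_const
          refine contDiff_const.mul ((expo_smooth hX l i).comp ?_)
          exact (EuclideanSpace.proj (𝕜 := ℝ) (0 : Fin 1)).contDiff
        add := fun t t' => by
          show b⁻¹ * x ((t + t') 0) * b = b⁻¹ * x (t 0) * b * (b⁻¹ * x (t' 0) * b)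
          have : (t + t') 0 = t 0 + t' 0 := rfl
          rw [this, hx, eg_add]
          group }
    refine pp_limit hact hyO hcpt hm hσ hc ?_
    refine (freq_rat s).mono ?_
    rintro t ⟨ρ, hρ⟩
    have h1 : T * g * (b⁻¹ * x (t 0) * b) = (T * x ρ) * b := by
      rw [hgb, ← hρ, hx, eg_add]
      group
    rw [h1]
    refine ih (fun Y hY => hL Y (by simp [hY])) (fun Y hY s => hLG Y (by simp [hY]) s) _ _ ?_ ?_
    · exact hT.mul (fun e f => expo_rat hX ρ e f)
    · rw [hb1]; exact hB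

/-- the action transported by a conjugation -/
theorem conj_action {O : Set N} {act : G → N → N} (hact : IsGAction G n N O act) (g₀ : G) :
    IsGAction G n N O (fun g => act (g₀ * g * g₀⁻¹)) where
  isOpen := hact.isOpen
  maps := fun g y hy => hact.maps _ y hy
  one := fun y hy => by
    have : g₀ * 1 * g₀⁻¹ = 1 := by group
    rw [this, hact.one y hy]
  mul := fun g h y hy => by
    rw [← hact.mul _ _ y hy]
    congr 1
    group
  cont := by
    refine hact.cont.comp (f := fun p : G × N => (g₀ * p.1 * g₀⁻¹, p.2)) (by fun_prop) ?_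
    rintro p ⟨-, hp⟩
    exact ⟨mem_univ _, hp⟩
  smooth := by
    intro j c hc
    refine hact.smooth j (fun s => g₀ * c s * g₀⁻¹) ?_
    intro a b
    have h1 : ∀ s, (g₀ * c s * g₀⁻¹).1.1 a b =
        ∑ i, (∑ l, g₀.1.1 a l * (c s).1.1 l i) * (g₀⁻¹).1.1 i b := by
      intro s
      have : (g₀ * c s * g₀⁻¹).1.1 = g₀.1.1 * (c s).1.1 * (g₀⁻¹).1.1 := rfl
      rw [this, Matrix.mul_apply]
      simp_rw [Matrix.mul_apply]
    simp_rw [h1]
    refine ContDiff.sum fun i _ => ContDiff.mul (ContDiff.sum fun l _ => ?_) contDiff_const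
    exact contDiff_const.mul (hc l i)

/-- The closing lemma at points of periodic nilmanifolds. -/
theorem closable_nilPer (F : DiffM n N r) (y : N) (h : IsNilPer n N F y) : ClosableAt n N r F y := by
  obtain ⟨d, w, G, M, σ, O, act, y₀, ⟨L, hL, hLG⟩, hσ, hact, hyO, hcpt, hfin,
    ⟨m, hm, ⟨h, hF⟩, hdis⟩, g₀, rfl⟩ := h
  have hL' : ∀ X ∈ L, Strict w X := hL
  have hG : ∀ g : G, Unip w g.1.1 := fun g => prods_unip L hL' _ ((hLG g.1).1 g.2)
  have hact' := conj_action hact g₀
  have hkey : ∀ g : G, act (g₀ * g * g₀⁻¹) (act g₀ y₀) = act (g₀ * g) y₀ := by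
    intro g
    rw [← hact.mul _ _ y₀ hyO]
    congr 1
    group
  have hkey' : ∀ g : G, act g y₀ = act (g₀ * (g₀⁻¹ * g) * g₀⁻¹) (act g₀ y₀) := by
    intro g
    rw [hkey, mul_inv_cancel_left]
  have hcpt' : IsCompact (range fun g => act (g₀ * g * g₀⁻¹) (act g₀ y₀)) := by
    have : (range fun g => act (g₀ * g * g₀⁻¹) (act g₀ y₀)) = range fun g => act g y₀ := by
      ext x
      constructor
      · rintro ⟨g, rfl⟩
        exact ⟨g₀ * g, (hkey g).symm⟩
      · rintro ⟨g, rfl⟩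
        exact ⟨g₀⁻¹ * g, (hkey' g).symm⟩
    rw [this]
    exact hcpt
  have hfin' : {x | ∃ g : G, Integral g ∧ act (g₀ * g * g₀⁻¹) (act g₀ y₀) = x}.Finite := by
    refine (hfin.image (act g₀)).subset ?_
    rintro x ⟨g, hg, rfl⟩
    refine ⟨act g y₀, ⟨g, hg, rfl⟩, ?_⟩
    rw [hkey, hact.mul _ _ y₀ hyO]
  have h1 := ind (n := n) (N := N) (r := r) hact' (hact.maps g₀ y₀ hyO) hcpt' hm hfin' hG hσ L hL'
    (fun X hX s => (hLG _).2 (expo_mem_prods hX s)) 1 (g₀⁻¹ * h * σ g₀)
    (fun a b => ⟨if a = b then 1 else 0, by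
      have : (1 : G).1.1 = (1 : Matrix (Fin d) (Fin d) ℝ) := rfl
      rw [this, Matrix.one_apply]; split_ifs <;> simp⟩)
    ((hLG (g₀⁻¹ * h * σ g₀).1).1 (g₀⁻¹ * h * σ g₀).2)
  rw [one_mul] at h1
  refine h1 F ?_ ?_
  · intro g
    show F^[m] (act (g₀ * g * g₀⁻¹) (act g₀ y₀)) =
      act (g₀ * (g₀⁻¹ * h * σ g₀ * σ g) * g₀⁻¹) (act g₀ y₀)
    rw [hkey, hF, hkey, map_mul]
    congr 1
    group
  · intro i hi1 him g g'
    show F^[i] (act (g₀ * g * g₀⁻¹) (act g₀ y₀)) ≠ act (g₀ * g' * g₀⁻¹) (act g₀ y₀)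
    rw [hkey, hkey]
    exact hdis i hi1 him _ _

theorem main (F : DiffM n N r) (z : N)
    (h : ∀ U : Set (DiffM n N r), IsOpen[strongTop n N r] U → F ∈ U →
      ∃ F' ∈ U, z ∈ closure {y | IsNilPer n N F' y}) : ClosableAt n N r F z := by
  apply closable_of_limit
  intro U hU hFU
  obtain ⟨F', hF', hz⟩ := h U hU hFU
  exact ⟨F', hF', closure_mono (fun y hy => closable_nilPer F' y hy) hz⟩

end Pool.Agent.V11104.NC
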